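import Mathlib
import Pool.Agent.Helper9.SK.St
import Pool.Agent.Helper48.BK.M_APZ

/-!
# Project SK, module APS: the sieve model in short intervals
-/

set_option autoImplicit false

noncomputable section

namespace Pool.Agent.Helper90.SK

open Finset ArithmeticFunction MeasureTheory
open Pool.Agent.Helper48.BK (ex th Pz Vz lz gs Sx Apx StBrun StVz cnt_APZ dvd_prod_APZ tail_APZ num_APZ
  mem_Pz_APZ sum_inv_APZ card_Pz_APZ Vz_pos_APZ tot_APZ ev_APZ)
open Pool.Agent.Helper60.GP (IsB II Err JJ)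
open Pool.Agent.Helper15.AB (Th)
open Pool.Agent.Helper58.SU (dsc StWinu)
open Pool.Agent.Helper9.SK

/-- a residue class and divisibility in a short interval -/
private theorem cntS (y k q u d : ℕ) (hq : 1 ≤ q) (hd : 1 ≤ d) (hqd : Nat.Coprime q d) :
    |((((Ioc y (y + k)).filter (fun n => n ≡ u [MOD q] ∧ d ∣ n)).card : ℕ) : ℝ) -
      (k : ℝ) / (q * d)| ≤ 2 := by
  have h1 := cnt_APZ y q u d hq hd hqd
  have h2 := cnt_APZ (y + k) q u d hq hd hqd
  have h3 : ((Ioc 0 (y + k)).filter (fun n => n ≡ u [MOD q] ∧ d ∣ n)).card =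
      ((Ioc 0 y).filter (fun n => n ≡ u [MOD q] ∧ d ∣ n)).card +
      ((Ioc y (y + k)).filter (fun n => n ≡ u [MOD q] ∧ d ∣ n)).card := by
    rw [← Finset.card_union_of_disjoint]
    · congr 1
      rw [← Finset.filter_union, Finset.Ioc_union_Ioc_eq_Ioc (Nat.zero_le y) (Nat.le_add_right y k)]
    · rw [Finset.disjoint_left]
      intro n hn hn'
      have a1 := (Finset.mem_Ioc.1 (Finset.mem_filter.1 hn).1).2
      have a2 := (Finset.mem_Ioc.1 (Finset.mem_filter.1 hn').1).1
      omega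
  rw [h3] at h2
  push_cast at h2
  rw [add_div] at h2
  rw [abs_le] at h1 h2 ⊢
  constructor <;> linarith [h1.1, h1.2, h2.1, h2.2]

open Classical in
/-- the sieve with Bonferroni inequalities in a residue class -/
private theorem sieveS (ha : StBrun) (P : Finset ℕ) (q : ℕ) (hP : ∀ p ∈ P, p.Prime ∧ Nat.Coprime p q)
    (hq : 1 ≤ q) (y k u r : ℕ) :
    |∑ n ∈ (Ioc y (y + k)).filter (fun n => n ≡ u [MOD q]), (if ∀ p ∈ P, ¬ p ∣ n then (1 : ℝ) else 0) -
      (k : ℝ) / q * ∏ p ∈ P, (1 - 1 / (p : ℝ))| ≤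
    2 * ((P.powerset.filter (fun T => T.card ≤ r + 1)).card : ℝ) + 2 * ((k : ℝ) / q) *
      ∑ T ∈ P.powerset.filter (fun T => r + 1 ≤ T.card), (1 : ℝ) / ((∏ p ∈ T, p : ℕ) : ℝ) := by
  set S := (Ioc y (y + k)).filter (fun n => n ≡ u [MOD q]) with hS
  set N : Finset ℕ → ℝ := fun T => ((S.filter (fun n => ∀ p ∈ T, p ∣ n)).card : ℝ) with hNd
  have hN : ∀ T ∈ P.powerset, |N T - (k : ℝ) / q * (1 / ((∏ p ∈ T, p : ℕ) : ℝ))| ≤ 2 := by
    intro T hT
    have hTP := Finset.mem_powerset.1 hT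
    have h1 : S.filter (fun n => ∀ p ∈ T, p ∣ n) =
        (Ioc y (y + k)).filter (fun n => n ≡ u [MOD q] ∧ (∏ p ∈ T, p) ∣ n) := by
      rw [hS, Finset.filter_filter]
      refine Finset.filter_congr fun n _ => ?_
      rw [dvd_prod_APZ T (fun p hp => (hP p (hTP hp)).1)]
    have h2 := cntS y k q u (∏ p ∈ T, p) hq
      (Nat.one_le_iff_ne_zero.2 (Finset.prod_ne_zero_iff.2 fun p hp => (hP p (hTP hp)).1.ne_zero))
      (Nat.Coprime.prod_right fun p hp => (hP p (hTP hp)).2.symm)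
    rw [← h1] at h2
    rw [div_mul_div_comm, mul_one]
    exact h2
  -- step A
  have hA : |∑ n ∈ S, (if ∀ p ∈ P, ¬ p ∣ n then (1 : ℝ) else 0) -
      ∑ T ∈ P.powerset.filter (fun T => T.card ≤ r), (-1 : ℝ) ^ T.card * N T| ≤
      ∑ T ∈ P.powerset.filter (fun T => T.card = r + 1), N T := by
    have h1 : ∀ (Q : Finset ℕ → Prop) [DecidablePred Q] (w : Finset ℕ → ℝ),
        ∑ n ∈ S, ∑ T ∈ P.powerset.filter (fun T => Q T ∧ ∀ p ∈ T, p ∣ n), w T =
        ∑ T ∈ P.powerset.filter Q, w T * N T := by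
      intro Q _ w
      have h2 : ∀ n ∈ S, ∑ T ∈ P.powerset.filter (fun T => Q T ∧ ∀ p ∈ T, p ∣ n), w T =
          ∑ T ∈ P.powerset.filter Q, if ∀ p ∈ T, p ∣ n then w T else 0 := by
        intro n _
        rw [← Finset.filter_filter, Finset.sum_filter]
      rw [Finset.sum_congr rfl h2, Finset.sum_comm]
      refine Finset.sum_congr rfl fun T _ => ?_
      rw [← Finset.sum_filter, Finset.sum_const, nsmul_eq_mul, mul_comm]
    rw [← h1 (fun T => T.card ≤ r) (fun T => (-1 : ℝ) ^ T.card), ← Finset.sum_sub_distrib]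
    refine (Finset.abs_sum_le_sum_abs _ _).trans ?_
    have h3 : ∑ T ∈ P.powerset.filter (fun T => T.card = r + 1), N T =
        ∑ T ∈ P.powerset.filter (fun T => T.card = r + 1), (fun _ => (1 : ℝ)) T * N T := by
      simp
    rw [h3, ← h1 (fun T => T.card = r + 1) (fun _ => (1 : ℝ))]
    refine Finset.sum_le_sum fun n _ => ?_
    refine (ha P r n).trans (le_of_eq ?_)
    simp
  -- the main term
  have hM : (k : ℝ) / q * ∏ p ∈ P, (1 - 1 / (p : ℝ)) =
      ∑ T ∈ P.powerset, (-1 : ℝ) ^ T.card * ((k : ℝ) / q * (1 / ((∏ p ∈ T, p : ℕ) : ℝ))) := by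
    have h1 : ∏ p ∈ P, (1 - 1 / (p : ℝ)) = ∏ p ∈ P, (1 + (-1) * (1 / (p : ℝ))) :=
      Finset.prod_congr rfl fun p _ => by ring
    rw [h1, Finset.prod_one_add, Finset.mul_sum]
    refine Finset.sum_congr rfl fun T _ => ?_
    rw [Finset.prod_mul_distrib, Finset.prod_const]
    have h3 : (1 : ℝ) / ((∏ p ∈ T, p : ℕ) : ℝ) = ∏ p ∈ T, (1 / (p : ℝ)) := by
      push_cast
      rw [Finset.prod_div_distrib]
      simp
    rw [h3]
    ring
  have hsplit := Finset.sum_filter_add_sum_filter_not P.powerset (fun T => T.card ≤ r)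
    (fun T => (-1 : ℝ) ^ T.card * ((k : ℝ) / q * (1 / ((∏ p ∈ T, p : ℕ) : ℝ))))
  have hnot : P.powerset.filter (fun T => ¬ T.card ≤ r) =
      P.powerset.filter (fun T => r + 1 ≤ T.card) :=
    Finset.filter_congr fun T _ => by omega
  rw [hnot] at hsplit
  have habs : ∀ T : Finset ℕ, |(-1 : ℝ) ^ T.card| = 1 := fun T => by simp
  have hB : |∑ T ∈ P.powerset.filter (fun T => T.card ≤ r), (-1 : ℝ) ^ T.card * N T -
      ∑ T ∈ P.powerset.filter (fun T => T.card ≤ r),
        (-1 : ℝ) ^ T.card * ((k : ℝ) / q * (1 / ((∏ p ∈ T, p : ℕ) : ℝ)))| ≤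
      2 * ((P.powerset.filter (fun T => T.card ≤ r)).card : ℝ) := by
    rw [← Finset.sum_sub_distrib]
    refine (Finset.abs_sum_le_sum_abs _ _).trans ?_
    rw [mul_comm, ← nsmul_eq_mul, ← Finset.sum_const]
    refine Finset.sum_le_sum fun T hT => ?_
    rw [← mul_sub, abs_mul, habs, one_mul]
    exact hN T (Finset.mem_filter.1 hT).1
  have hC : |∑ T ∈ P.powerset.filter (fun T => r + 1 ≤ T.card),
      (-1 : ℝ) ^ T.card * ((k : ℝ) / q * (1 / ((∏ p ∈ T, p : ℕ) : ℝ)))| ≤
      (k : ℝ) / q * ∑ T ∈ P.powerset.filter (fun T => r + 1 ≤ T.card),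
        (1 : ℝ) / ((∏ p ∈ T, p : ℕ) : ℝ) := by
    refine (Finset.abs_sum_le_sum_abs _ _).trans ?_
    rw [Finset.mul_sum]
    refine Finset.sum_le_sum fun T _ => ?_
    rw [abs_mul, habs, one_mul, abs_of_nonneg (by positivity)]
  have hD : ∑ T ∈ P.powerset.filter (fun T => T.card = r + 1), N T ≤
      2 * ((P.powerset.filter (fun T => T.card = r + 1)).card : ℝ) +
      (k : ℝ) / q * ∑ T ∈ P.powerset.filter (fun T => r + 1 ≤ T.card),
        (1 : ℝ) / ((∏ p ∈ T, p : ℕ) : ℝ) := by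
    have h1 : ∑ T ∈ P.powerset.filter (fun T => T.card = r + 1), N T ≤
        ∑ T ∈ P.powerset.filter (fun T => T.card = r + 1),
          (2 + (k : ℝ) / q * (1 / ((∏ p ∈ T, p : ℕ) : ℝ))) := by
      refine Finset.sum_le_sum fun T hT => ?_
      have := (abs_le.1 (hN T (Finset.mem_filter.1 hT).1)).2
      linarith
    refine h1.trans ?_
    rw [Finset.sum_add_distrib, Finset.sum_const, nsmul_eq_mul, mul_comm _ (2 : ℝ), ← Finset.mul_sum]
    refine add_le_add le_rfl (mul_le_mul_of_nonneg_left ?_ (by positivity))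
    refine Finset.sum_le_sum_of_subset_of_nonneg ?_ fun T _ _ => by positivity
    intro T hT
    rw [Finset.mem_filter] at hT ⊢
    exact ⟨hT.1, hT.2.ge⟩
  have hE : ((P.powerset.filter (fun T => T.card ≤ r)).card : ℝ) +
      ((P.powerset.filter (fun T => T.card = r + 1)).card : ℝ) =
      ((P.powerset.filter (fun T => T.card ≤ r + 1)).card : ℝ) := by
    rw [← Nat.cast_add, ← Finset.card_union_of_disjoint]
    · congr 2
      ext T
      simp only [Finset.mem_union, Finset.mem_filter]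
      constructor
      · rintro (⟨h1, h2⟩ | ⟨h1, h2⟩)
        · exact ⟨h1, by omega⟩
        · exact ⟨h1, by omega⟩
      · rintro ⟨h1, h2⟩
        rcases Nat.lt_or_ge r T.card with h | h
        · exact Or.inr ⟨h1, by omega⟩
        · exact Or.inl ⟨h1, h⟩
    · rw [Finset.disjoint_filter]
      intro T _ h1 h2
      omega
  rw [hM, ← hsplit]
  rw [abs_le] at hA hB hC ⊢
  constructor <;> linarith [hA.1, hA.2, hB.1, hB.2, hC.1, hC.2, hD, hE]

theorem hAPS (hBrun : Pool.Agent.Helper48.BK.StBrun) (hVz : Pool.Agent.Helper48.BK.StVz) : StAps := by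
  obtain ⟨c, hc0, hc⟩ := hVz
  intro A B
  obtain ⟨K, hK⟩ : ∃ K : ℕ, K = 3 * B + A + 2 := ⟨_, rfl⟩
  obtain ⟨D, hD⟩ : ∃ D : ℝ, D = (A + 1) + B * (K + 2) + Real.log (12 * (B + 1) / c + 1) := ⟨_, rfl⟩
  obtain ⟨x₀, hx₀⟩ := Filter.eventually_atTop.1 (ev_APZ (5 * D) (100 * (B + 1) / c))
  refine ⟨x₀, fun x y k z q u hx hxk hz hzx hq hqz => ?_⟩
  obtain ⟨ht1, hDt, hE⟩ := hx₀ x hx
  set l := Real.log x with hl
  set t := Real.log l with ht
  have hB0 : (0 : ℝ) ≤ B := Nat.cast_nonneg B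
  have hl0 : 0 < l := lt_of_lt_of_le (by positivity) hE
  have hx1 : 1 < x := by
    by_contra h
    have : (x : ℝ) ≤ 1 := by exact_mod_cast not_lt.1 h
    have := Real.log_nonpos (Nat.cast_nonneg x) this
    linarith
  have hxpos : (0 : ℝ) < x := by
    have : (1 : ℝ) < x := by exact_mod_cast hx1
    linarith
  have hexp : Real.exp t = l := Real.exp_log hl0
  have hexl : Real.exp l = x := Real.exp_log hxpos
  have htl : t ≤ l := (Real.log_le_sub_one_of_pos hl0).trans (by linarith)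
  have hz0 : (0 : ℝ) < z := by
    have : (2 : ℝ) ≤ z := by exact_mod_cast hz
    linarith
  have hlz : Real.log z ≤ B * t := by
    have := Real.log_le_log hz0 hzx
    rwa [Real.log_pow] at this
  have hlz0 : 0 ≤ Real.log z := Real.log_nonneg (by
    have : (2 : ℝ) ≤ z := by exact_mod_cast hz
    linarith)
  have hX : (0 : ℝ) ≤ k / l ^ A := by positivity
  by_cases hcop : Nat.Coprime u q
  swap
  · rw [if_neg hcop, sub_zero]
    have hzero : ∑ n ∈ (Ioc y (y + k)).filter (fun n => n ≡ u [MOD q]), lz z n = 0 := by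
      refine Finset.sum_eq_zero fun n hn => ?_
      have hnu := (Finset.mem_filter.1 hn).2
      obtain ⟨p, hp, hpu, hpq⟩ := Nat.Prime.not_coprime_iff_dvd.1 hcop
      rw [lz, if_neg]
      intro h
      refine h p ((mem_Pz_APZ z p).2 ⟨(Nat.le_of_dvd hq hpq).trans hqz, hp⟩) ?_
      exact ((hnu.of_dvd hpq).dvd_iff dvd_rfl).2 hpu
    rw [hzero, abs_zero]
    exact hX
  rw [if_pos hcop]
  set P := (Pz z).filter (fun p => ¬ p ∣ q) with hPd
  have hP : ∀ p ∈ P, p.Prime ∧ Nat.Coprime p q := by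
    intro p hp
    rw [hPd, Finset.mem_filter, mem_Pz_APZ] at hp
    exact ⟨hp.1.2, (Nat.Prime.coprime_iff_not_dvd hp.1.2).2 hp.2⟩
  obtain ⟨r, hr⟩ : ∃ r : ℕ, r = ⌈K * t⌉₊ := ⟨_, rfl⟩
  have hr1 : (K : ℝ) * t ≤ r := by rw [hr]; exact Nat.le_ceil _
  have hr2 : (r : ℝ) ≤ K * t + 1 := by
    rw [hr]
    exact (Nat.ceil_lt_add_one (by positivity)).le
  have hsv := sieveS hBrun P q hP hq y k u r
  have hV := Vz_pos_APZ z
  -- the sum of the model
  have hsum : ∑ n ∈ (Ioc y (y + k)).filter (fun n => n ≡ u [MOD q]), lz z n =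
      1 / Vz z * ∑ n ∈ (Ioc y (y + k)).filter (fun n => n ≡ u [MOD q]),
        (if ∀ p ∈ P, ¬ p ∣ n then (1 : ℝ) else 0) := by
    rw [Finset.mul_sum]
    refine Finset.sum_congr rfl fun n hn => ?_
    have hnu := (Finset.mem_filter.1 hn).2
    have hiff : (∀ p ∈ Pz z, ¬ p ∣ n) ↔ ∀ p ∈ P, ¬ p ∣ n := by
      constructor
      · intro h p hp
        exact h p (Finset.mem_filter.1 hp).1
      · intro h p hp hpn
        by_cases hpq : p ∣ q
        · have hpu : p ∣ u := ((hnu.of_dvd hpq).dvd_iff dvd_rfl).1 hpn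
          exact (Nat.Prime.not_coprime_iff_dvd.2 ⟨p, ((mem_Pz_APZ z p).1 hp).2, hpu, hpq⟩) hcop
        · exact h p (Finset.mem_filter.2 ⟨hp, hpq⟩) hpn
    rw [lz]
    by_cases h : ∀ p ∈ Pz z, ¬ p ∣ n
    · rw [if_pos h, if_pos (hiff.1 h), mul_one]
    · rw [if_neg h, if_neg (fun h' => h (hiff.2 h')), mul_zero]
  have hmain : (k : ℝ) / Nat.totient q = 1 / Vz z * ((k : ℝ) / q * ∏ p ∈ P, (1 - 1 / (p : ℝ))) := by
    have h1 := tot_APZ z q hq hqz
    calc (k : ℝ) / Nat.totient q = k * (1 / (Nat.totient q : ℝ)) := by ring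
      _ = k * (1 / Vz z * (1 / (q : ℝ) * ∏ p ∈ P, (1 - 1 / (p : ℝ)))) := by rw [← h1]
      _ = _ := by ring
  rw [hsum, hmain, ← mul_sub, abs_mul, abs_of_pos (by positivity : (0 : ℝ) < 1 / Vz z)]
  have hVinv : 1 / Vz z ≤ Real.log z / c := by
    have h1 := hc z hz
    have hlz1 : 0 < Real.log z := Real.log_pos (by
      have : (2 : ℝ) ≤ z := by exact_mod_cast hz
      linarith)
    rw [div_le_div_iff₀ hV hc0, one_mul]
    rw [div_le_iff₀ hlz1] at h1
    linarith
  have hnum := num_APZ P (r + 1) z (by omega)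
    ((Finset.card_le_card (Finset.filter_subset _ _)).trans (card_Pz_APZ z))
  have htail := tail_APZ P (r + 1) (1 + Real.log z)
    ((Finset.sum_le_sum_of_subset_of_nonneg (Finset.filter_subset _ _)
      fun p _ _ => by positivity).trans (sum_inv_APZ z))
  have hyq : (k : ℝ) / q ≤ k := by
    have h1 : (1 : ℝ) ≤ q := by exact_mod_cast hq
    exact div_le_self (Nat.cast_nonneg k) h1
  have hk5 : Real.exp (l / 5) ≤ k := by
    refine le_trans (le_of_eq ?_) hxk
    rw [Real.rpow_def_of_pos hxpos, ← hl]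
    ring_nf
  -- first term
  have hT1 : Real.log z / c * (6 * (z : ℝ) ^ (r + 1)) ≤ k / (2 * l ^ A) := by
    have h1 : (z : ℝ) ^ (r + 1) ≤ Real.exp (B * (K * t + 2) * t) := by
      calc (z : ℝ) ^ (r + 1) ≤ (l ^ B) ^ (r + 1) := pow_le_pow_left₀ hz0.le hzx _
        _ = Real.exp ((B * (r + 1) : ℕ) * t) := by
            rw [Real.exp_nat_mul, hexp, pow_mul]
        _ ≤ Real.exp (B * (K * t + 2) * t) := by
            refine Real.exp_le_exp.2 ?_
            push_cast
            refine mul_le_mul_of_nonneg_right ?_ (by linarith)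
            exact mul_le_mul_of_nonneg_left (by linarith) hB0
    have h2 : Real.log z / c ≤ B / c * l := by
      rw [div_mul_eq_mul_div]
      exact div_le_div_of_nonneg_right (hlz.trans (mul_le_mul_of_nonneg_left htl hB0)) hc0.le
    rw [le_div_iff₀ (by positivity)]
    calc Real.log z / c * (6 * (z : ℝ) ^ (r + 1)) * (2 * l ^ A)
        ≤ B / c * l * (6 * Real.exp (B * (K * t + 2) * t)) * (2 * l ^ A) := by
          gcongr
      _ = 12 * B / c * (Real.exp t ^ (A + 1) * Real.exp (B * (K * t + 2) * t)) := by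
          rw [hexp]; ring
      _ = 12 * B / c * Real.exp ((A + 1) * t + B * (K * t + 2) * t) := by
          rw [← Real.exp_nat_mul, ← Real.exp_add]
          push_cast
          rfl
      _ ≤ (12 * (B + 1) / c + 1) * Real.exp ((A + 1) * t + B * (K * t + 2) * t) := by
          refine mul_le_mul_of_nonneg_right ?_ (Real.exp_nonneg _)
          have : 12 * (B : ℝ) / c ≤ 12 * (B + 1) / c := by gcongr; linarith
          linarith
      _ = Real.exp (Real.log (12 * (B + 1) / c + 1) + ((A + 1) * t + B * (K * t + 2) * t)) := by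
          rw [Real.exp_add (Real.log _), Real.exp_log (by positivity)]
      _ ≤ Real.exp (D * t ^ 2) := by
          refine Real.exp_le_exp.2 ?_
          have hM : 0 ≤ Real.log (12 * (B + 1) / c + 1) := Real.log_nonneg (by
            have : 0 ≤ 12 * ((B : ℝ) + 1) / c := by positivity
            linarith)
          have ht2 : 1 ≤ t ^ 2 := one_le_pow₀ ht1
          have htt : t ≤ t ^ 2 := by nlinarith
          have hA0 : (0 : ℝ) ≤ A := Nat.cast_nonneg A
          rw [hD]
          have e1 : Real.log (12 * (B + 1) / c + 1) ≤ Real.log (12 * (B + 1) / c + 1) * t ^ 2 :=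
            le_mul_of_one_le_right hM ht2
          have e2 : ((A : ℝ) + 1) * t ≤ (A + 1) * t ^ 2 :=
            mul_le_mul_of_nonneg_left htt (by linarith)
          have e3 : (B : ℝ) * (K * t + 2) * t ≤ B * (K + 2) * t ^ 2 := by
            have : (B : ℝ) * (K + 2) * t ^ 2 - B * (K * t + 2) * t = 2 * B * (t ^ 2 - t) := by ring
            have h5 : 0 ≤ 2 * (B : ℝ) * (t ^ 2 - t) := mul_nonneg (by linarith) (by linarith)
            linarith
          nlinarith [e1, e2, e3]
      _ ≤ Real.exp (l / 5) := Real.exp_le_exp.2 (by linarith)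
      _ ≤ k := hk5
  -- second term
  have hT2 : Real.log z / c * (2 * k * Real.exp (3 * (1 + Real.log z) - ((r + 1 : ℕ) : ℝ))) ≤
      k / (2 * l ^ A) := by
    have h1 : Real.exp (3 * (1 + Real.log z) - ((r + 1 : ℕ) : ℝ)) ≤
        21 / l ^ (A + 2) := by
      have h2 : 3 * (1 + Real.log z) - ((r + 1 : ℕ) : ℝ) ≤ 3 - (A + 2 : ℕ) * t := by
        push_cast
        have h3 : (K : ℝ) = 3 * B + A + 2 := by rw [hK]; push_cast; ring
        rw [h3] at hr1
        nlinarith [hr1, hlz]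
      have h4 : Real.exp 3 ≤ 21 := by
        have h5 := Real.exp_one_lt_d9
        have h6 : Real.exp 3 = Real.exp 1 ^ 3 := by
          rw [← Real.exp_nat_mul]; norm_num
        rw [h6]
        calc Real.exp 1 ^ 3 ≤ 2.7182818286 ^ 3 := pow_le_pow_left₀ (Real.exp_nonneg _) h5.le 3
          _ ≤ 21 := by norm_num
      refine (Real.exp_le_exp.2 h2).trans ?_
      rw [Real.exp_sub, Real.exp_nat_mul, hexp]
      exact div_le_div_of_nonneg_right h4 (by positivity)
    have h2 : Real.log z / c ≤ B / c * l := by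
      rw [div_mul_eq_mul_div]
      exact div_le_div_of_nonneg_right (hlz.trans (mul_le_mul_of_nonneg_left htl hB0)) hc0.le
    calc Real.log z / c * (2 * k * Real.exp (3 * (1 + Real.log z) - ((r + 1 : ℕ) : ℝ)))
        ≤ B / c * l * (2 * k * (21 / l ^ (A + 2))) := by gcongr
      _ = (42 * B / c / l) * (k / l ^ A) := by
          field_simp
          ring
      _ ≤ (1 / 2) * (k / l ^ A) := by
          refine mul_le_mul_of_nonneg_right ?_ hX
          rw [div_le_iff₀ hl0]
          have h3 : 42 * (B : ℝ) / c ≤ 1 / 2 * (100 * (B + 1) / c) := by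
            have h4 : 1 / 2 * (100 * ((B : ℝ) + 1) / c) = 50 * (B + 1) / c := by ring
            rw [h4]
            exact div_le_div_of_nonneg_right (by linarith) hc0.le
          linarith [h3, hE]
      _ = k / (2 * l ^ A) := by
          field_simp
  calc 1 / Vz z * |∑ n ∈ (Ioc y (y + k)).filter (fun n => n ≡ u [MOD q]),
        (if ∀ p ∈ P, ¬ p ∣ n then (1 : ℝ) else 0) - (k : ℝ) / q * ∏ p ∈ P, (1 - 1 / (p : ℝ))|
      ≤ Real.log z / c * (6 * (z : ℝ) ^ (r + 1) +
          2 * k * Real.exp (3 * (1 + Real.log z) - ((r + 1 : ℕ) : ℝ))) := by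
        refine mul_le_mul hVinv (hsv.trans ?_) (abs_nonneg _) (by positivity)
        refine add_le_add (by linarith) ?_
        refine mul_le_mul ?_ htail (Finset.sum_nonneg fun T _ => by positivity) (by positivity)
        linarith
    _ = Real.log z / c * (6 * (z : ℝ) ^ (r + 1)) + Real.log z / c *
          (2 * k * Real.exp (3 * (1 + Real.log z) - ((r + 1 : ℕ) : ℝ))) := by ring
    _ ≤ k / (2 * l ^ A) + k / (2 * l ^ A) := add_le_add hT1 hT2
    _ = k / l ^ A := by
        field_simp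
        ring

end Pool.Agent.Helper90.SK
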